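import Pool.Agent.H20.CBd3

namespace Pool.Agent.Results.MP_40378c_al.Invariant

open Pool.Agent.H20.CBd

theorem result.{u, v} :
    (∀ (G : Type u) [Group G] (S S' : Set G), S.Finite → S'.Finite →
      Subgroup.closure S = ⊤ → Subgroup.closure S' = ⊤ →
      HasCB (SimpleGraph.mulCayley S) → HasCB (SimpleGraph.mulCayley S')) ∧
    (∀ (G : Type u) [Group G] (H : Type v) [Group H] (S : Set G) (S' : Set H),
      S.Finite → S'.Finite → Subgroup.closure S = ⊤ → Subgroup.closure S' = ⊤ →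
      BiLipschitz (SimpleGraph.mulCayley S) (SimpleGraph.mulCayley S') →
      HasCB (SimpleGraph.mulCayley S) → HasCB (SimpleGraph.mulCayley S')) ∧
    (∀ (G : Type u) [Group G] (H : Type v) [Group H] (S : Set G) (S' : Set H),
      S.Finite → S'.Finite → Subgroup.closure S = ⊤ → Subgroup.closure S' = ⊤ →
      QuasiIsometric (SimpleGraph.mulCayley S) (SimpleGraph.mulCayley S') →
      HasCB (SimpleGraph.mulCayley S) → HasCB (SimpleGraph.mulCayley S')) :=
  ⟨fun _ _ _ _ h1 h2 h3 h4 => gen_change h1 h2 h3 h4,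
    fun _ _ _ _ _ _ h1 h2 h3 h4 h => hasCB_qi (cay_conn h3) (cay_lf h1) (cay_conn h4) (cay_lf h2)
      (qi_of_biLip h),
    fun _ _ _ _ _ _ h1 h2 h3 h4 h => hasCB_qi (cay_conn h3) (cay_lf h1) (cay_conn h4) (cay_lf h2) h⟩

end Pool.Agent.Results.MP_40378c_al.Invariant
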